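import Pool.Agent.Helper3K9.HK.Main

/-!
# The number of hooks of length two in all `t`-regular partitions of `n` increases with `t ≥ 3`

A partition is `t`-regular if none of its parts is divisible by `t`. Let `b_{t,k}(n)` be the total
number of cells with hook length `k` in the Young diagrams of the `t`-regular partitions of `n`. We
prove `b_{t,2}(n) ≤ b_{t+1,2}(n)` for all `t ≥ 3` and all `n ≥ 0`, which answers Q1 affirmatively.

Idea of the proof. Let `T = t + 1` and let `G_t` be the generating function of the `t`-regular
partitions. A partition has `#{s ≥ 2 : s is a part, s - 1 is not} + #{s : s occurs twice or more}`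
hooks of length two, so the generating function of `b_{t,2}` is `G_t A_t` with
`A_t = 2q²/(1-q²) - C_t` and `C_t = ∑_{j ≥ 1} (q^{tj} + q^{2tj} - q^{2tj-1} - q^{2tj+1})`. Hence
`G_T A_T - G_t A_t = (G_T - G_t) A_T + G_t (C_t - C_T)`.
* With `U = (1-q) G_t`, the second part is `∑_{j ≥ 1} U (q^{t(2j-1)} [2j-1] - q^{2tj-1} (1-q)(1-q^{2j}))`
  and each summand has nonnegative coefficients, because `U`, `U (1-q²)` and `U (1-q^{t-1})` do
  (they count partitions without the parts `1, 2, t-1`).
* By Glaisher's theorem the coefficient `w(m)` of `G_T - G_t` is the number of partitions of `m` whose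
  largest multiplicity is exactly `t`. If `t` is odd, then `A_T` has nonnegative coefficients. If `t`
  is even, the only negative coefficients of `A_T` are `-1` at the odd multiples of `T`; they are
  compensated by the coefficients `2` at even exponents by `w(m) ≤ 2 w(m+1) + w(m+3)`, which follows
  from the injections (add a part 1), (increase the largest part by 1) and `1^t ↦ (3, 1^t)`.
-/

set_option autoImplicit false

namespace Pool.Agent.Results.MP_6996b5_co.TwoHookMonotonicity

open Finset

/-- `λ_i`: the `i`-th largest part of the partition `l`, `i = 1, 2, …` (zero if there are fewer than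
`i` parts) -/
def row {n : ℕ} (l : n.Partition) (i : ℕ) : ℕ := (l.parts.sort (· ≥ ·)).getD (i - 1) 0

/-- `λ'_j`: the `j`-th part of the conjugate partition, that is, the number of parts `≥ j` -/
def col {n : ℕ} (l : n.Partition) (j : ℕ) : ℕ := (l.parts.filter (j ≤ ·)).card

/-- the hook length `λ_i - j + λ'_j - i + 1` of the cell `(i, j)` -/
def hookLength {n : ℕ} (l : n.Partition) (i j : ℕ) : ℤ :=
  (row l i : ℤ) - j + col l j - i + 1

/-- `h_k(λ)`: the number of cells `(i, j)`, `i ≥ 1`, `1 ≤ j ≤ λ_i`, with hook length `k` (the Young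
diagram of a partition of `n` is contained in the square of side `n`) -/
def h (k : ℕ) {n : ℕ} (l : n.Partition) : ℕ :=
  #{c ∈ Icc 1 n ×ˢ Icc 1 n | c.2 ≤ row l c.1 ∧ hookLength l c.1 c.2 = k}

/-- `b_{t,k}(n)`: the sum of `h_k(λ)` over all partitions `λ` of `n` without parts divisible by
`t` -/
def b (t k n : ℕ) : ℕ := ∑ l : n.Partition with ∀ i ∈ l.parts, ¬ t ∣ i, h k l

/-- **For all `t ≥ 3` and all `n`, `b_{t,2}(n) ≤ b_{t+1,2}(n)`.** -/
theorem result : ∀ t n : ℕ, 3 ≤ t → b t 2 n ≤ b (t + 1) 2 n := by
  intro t n ht
  have h1 : ∀ (s : ℕ), b s 2 n = Helper3K9.HK.hooks (fun i => ¬ s ∣ i) 2 n := by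
    intro s
    unfold b Helper3K9.HK.hooks
    refine sum_congr rfl fun l _ => ?_
    unfold h Helper3K9.HK.cells
    rw [filter_filter]
    rfl
  rw [h1, h1]
  exact Helper3K9.HK.main t ht n

end Pool.Agent.Results.MP_6996b5_co.TwoHookMonotonicity
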